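import Pool.Agent.KTK.Stmts
import Pool.Agent.Helper53_TrInd.Miranda

/-!
# KTK, row CHN: a cyclic chain of crossing boxes has a fixed point
-/

set_option autoImplicit false

namespace Pool.Agent.KTK.H77

open Pool.Agent.KTK

/-- a coordinate of a point of a box -/
theorem abs_coord (r x : ℝ) (hr : 0 < r) (h0 : 0 ≤ x) (h1 : x ≤ 1) : |r * (2 * x - 1)| ≤ r := by
  rw [abs_mul, abs_of_pos hr]
  have h : |2 * x - 1| ≤ 1 := abs_le.2 ⟨by linarith, by linarith⟩
  nlinarith

/-- **CHN** -/
theorem chn : ChnStmt := by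
  intro n r t Φ Θ hn hrt hΦ hΘ hA hB
  classical
  let P : Set.Icc (0 : Fin n × Bool → ℝ) 1 → ℕ → ℝ × ℝ := fun u i =>
    if h : i < n then
      (r i * (2 * u.1 (⟨i, h⟩, false) - 1), t i * (2 * u.1 (⟨i, h⟩, true) - 1)) else 0
  have hPe : ∀ u i (h : i < n), P u i =
      (r i * (2 * u.1 (⟨i, h⟩, false) - 1), t i * (2 * u.1 (⟨i, h⟩, true) - 1)) :=
    fun u i h => dif_pos h
  have hc : ∀ j : Fin n × Bool,
      Continuous fun u : Set.Icc (0 : Fin n × Bool → ℝ) 1 => u.1 j :=
    fun j => (continuous_apply j).comp continuous_subtype_val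
  have hPc : ∀ i, Continuous fun u => P u i := by
    intro i
    by_cases h : i < n
    · have e : (fun u => P u i) = fun u =>
          (r i * (2 * u.1 (⟨i, h⟩, false) - 1), t i * (2 * u.1 (⟨i, h⟩, true) - 1)) :=
        funext fun u => hPe u i h
      rw [e]
      exact (continuous_const.mul ((continuous_const.mul (hc _)).sub continuous_const)).prodMk
        (continuous_const.mul ((continuous_const.mul (hc _)).sub continuous_const))
    · have e : (fun u => P u i) = fun _ => 0 := funext fun u => dif_neg h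
      rw [e]
      exact continuous_const
  have hb : ∀ u i, i < n → |(P u i).1| ≤ r i ∧ |(P u i).2| ≤ t i := by
    intro u i h
    rw [hPe u i h]
    exact ⟨abs_coord _ _ (hrt i h).1 (u.2.1 _) (u.2.2 _), abs_coord _ _ (hrt i h).2 (u.2.1 _) (u.2.2 _)⟩
  have h0f : ∀ u i (h : i < n), u.1 (⟨i, h⟩, false) = 0 → (P u i).1 = -r i := by
    intro u i h h1
    rw [hPe u i h]
    show r i * (2 * u.1 (⟨i, h⟩, false) - 1) = -r i
    rw [h1]
    ring
  have h1f : ∀ u i (h : i < n), u.1 (⟨i, h⟩, false) = 1 → (P u i).1 = r i := by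
    intro u i h h1
    rw [hPe u i h]
    show r i * (2 * u.1 (⟨i, h⟩, false) - 1) = r i
    rw [h1]
    ring
  have h0t : ∀ u i (h : i < n), u.1 (⟨i, h⟩, true) = 0 → (P u i).2 = -t i := by
    intro u i h h1
    rw [hPe u i h]
    show t i * (2 * u.1 (⟨i, h⟩, true) - 1) = -t i
    rw [h1]
    ring
  have h1t : ∀ u i (h : i < n), u.1 (⟨i, h⟩, true) = 1 → (P u i).2 = t i := by
    intro u i h h1
    rw [hPe u i h]
    show t i * (2 * u.1 (⟨i, h⟩, true) - 1) = t i
    rw [h1]
    ring
  -- the two families of components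
  let f0 : ℕ → Set.Icc (0 : Fin n × Bool → ℝ) 1 → ℝ := fun i u =>
    (Φ i (P u i)).1 - (if i + 1 < n then (P u (i + 1)).1 else (Θ (P u 0)).1)
  let f1 : ℕ → Set.Icc (0 : Fin n × Bool → ℝ) 1 → ℝ := fun i u =>
    if i = 0 then (Θ (P u 0)).2 - (Φ (n - 1) (P u (n - 1))).2
    else (P u i).2 - (Φ (i - 1) (P u (i - 1))).2
  let f : Fin n × Bool → Set.Icc (0 : Fin n × Bool → ℝ) 1 → ℝ := fun j u =>
    if j.2 = true then f1 j.1 u else f0 j.1 u
  have hfF : ∀ (i : ℕ) (h : i < n) u, f (⟨i, h⟩, false) u = f0 i u := fun i h u => if_neg (by simp)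
  have hfT : ∀ (i : ℕ) (h : i < n) u, f (⟨i, h⟩, true) u = f1 i u := fun i h u => if_pos rfl
  have hP0 : Continuous fun u => Θ (P u 0) := hΘ.comp (hPc 0)
  have hPΦ : ∀ i < n, Continuous fun u => Φ i (P u i) := fun i h => (hΦ i h).comp (hPc i)
  have hf0 : ∀ i < n, Continuous (f0 i) := by
    intro i h
    by_cases h1 : i + 1 < n
    · have e : f0 i = fun u => (Φ i (P u i)).1 - (P u (i + 1)).1 := by
        funext u
        show (Φ i (P u i)).1 - (if i + 1 < n then (P u (i + 1)).1 else (Θ (P u 0)).1) = _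
        rw [if_pos h1]
      rw [e]
      exact (continuous_fst.comp (hPΦ i h)).sub (continuous_fst.comp (hPc (i + 1)))
    · have e : f0 i = fun u => (Φ i (P u i)).1 - (Θ (P u 0)).1 := by
        funext u
        show (Φ i (P u i)).1 - (if i + 1 < n then (P u (i + 1)).1 else (Θ (P u 0)).1) = _
        rw [if_neg h1]
      rw [e]
      exact (continuous_fst.comp (hPΦ i h)).sub (continuous_fst.comp hP0)
  have hf1 : ∀ i < n, Continuous (f1 i) := by
    intro i h
    by_cases h1 : i = 0
    · have e : f1 i = fun u => (Θ (P u 0)).2 - (Φ (n - 1) (P u (n - 1))).2 :=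
        funext fun u => if_pos h1
      rw [e]
      exact (continuous_snd.comp hP0).sub (continuous_snd.comp (hPΦ (n - 1) (by omega)))
    · have e : f1 i = fun u => (P u i).2 - (Φ (i - 1) (P u (i - 1))).2 :=
        funext fun u => if_neg h1
      rw [e]
      exact (continuous_snd.comp (hPc i)).sub (continuous_snd.comp (hPΦ (i - 1) (by omega)))
  have hfc : ∀ j, Continuous (f j) := by
    rintro ⟨⟨i, h⟩, b⟩
    cases b
    · exact hf0 i h
    · exact hf1 i h
  have g0 : ∀ j (u : Set.Icc (0 : Fin n × Bool → ℝ) 1), u.1 j = 0 → f j u ≤ 0 := by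
    rintro ⟨⟨i, h⟩, b⟩ u hu
    cases b
    · rw [hfF i h u]
      have h2 := (hA i h (P u i) (hb u i h).1 (hb u i h).2).2.1 (h0f u i h hu)
      show (Φ i (P u i)).1 - (if i + 1 < n then (P u (i + 1)).1 else (Θ (P u 0)).1) ≤ 0
      by_cases h1 : i + 1 < n
      · rw [if_pos h1]
        have h3 := neg_le_of_abs_le (hb u (i + 1) h1).1
        linarith
      · rw [if_neg h1]
        have e : i + 1 = n := by omega
        rw [e] at h2
        have h3 := neg_le_of_abs_le (hB (P u 0) (hb u 0 (by omega)).1 (hb u 0 (by omega)).2).1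
        linarith
    · rw [hfT i h u]
      show (if i = 0 then (Θ (P u 0)).2 - (Φ (n - 1) (P u (n - 1))).2
        else (P u i).2 - (Φ (i - 1) (P u (i - 1))).2) ≤ 0
      by_cases h1 : i = 0
      · subst h1
        rw [if_pos rfl]
        have h2 := (hB (P u 0) (hb u 0 h).1 (hb u 0 h).2).2.2 (h0t u 0 h hu)
        have h3 := neg_le_of_abs_le (hA (n - 1) (by omega) (P u (n - 1)) (hb u (n - 1) (by omega)).1
          (hb u (n - 1) (by omega)).2).2.2
        have e : n - 1 + 1 = n := by omega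
        rw [e] at h3
        linarith
      · rw [if_neg h1]
        have h2 := h0t u i h hu
        have h3 := neg_le_of_abs_le (hA (i - 1) (by omega) (P u (i - 1)) (hb u (i - 1) (by omega)).1
          (hb u (i - 1) (by omega)).2).2.2
        have e : i - 1 + 1 = i := by omega
        rw [e] at h3
        linarith
  have g1 : ∀ j (u : Set.Icc (0 : Fin n × Bool → ℝ) 1), u.1 j = 1 → 0 ≤ f j u := by
    rintro ⟨⟨i, h⟩, b⟩ u hu
    cases b
    · rw [hfF i h u]
      have h2 := (hA i h (P u i) (hb u i h).1 (hb u i h).2).1 (h1f u i h hu)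
      show 0 ≤ (Φ i (P u i)).1 - (if i + 1 < n then (P u (i + 1)).1 else (Θ (P u 0)).1)
      by_cases h1 : i + 1 < n
      · rw [if_pos h1]
        have h3 := le_of_abs_le (hb u (i + 1) h1).1
        linarith
      · rw [if_neg h1]
        have e : i + 1 = n := by omega
        rw [e] at h2
        have h3 := le_of_abs_le (hB (P u 0) (hb u 0 (by omega)).1 (hb u 0 (by omega)).2).1
        linarith
    · rw [hfT i h u]
      show 0 ≤ (if i = 0 then (Θ (P u 0)).2 - (Φ (n - 1) (P u (n - 1))).2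
        else (P u i).2 - (Φ (i - 1) (P u (i - 1))).2)
      by_cases h1 : i = 0
      · subst h1
        rw [if_pos rfl]
        have h2 := (hB (P u 0) (hb u 0 h).1 (hb u 0 h).2).2.1 (h1t u 0 h hu)
        have h3 := le_of_abs_le (hA (n - 1) (by omega) (P u (n - 1)) (hb u (n - 1) (by omega)).1
          (hb u (n - 1) (by omega)).2).2.2
        have e : n - 1 + 1 = n := by omega
        rw [e] at h3
        linarith
      · rw [if_neg h1]
        have h2 := h1t u i h hu
        have h3 := le_of_abs_le (hA (i - 1) (by omega) (P u (i - 1)) (hb u (i - 1) (by omega)).1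
          (hb u (i - 1) (by omega)).2).2.2
        have e : i - 1 + 1 = i := by omega
        rw [e] at h3
        linarith
  obtain ⟨u, hu⟩ := Pool.Agent.Helper53_TrInd.miranda f hfc g0 g1
  have k0 : ∀ i, i < n → f0 i u = 0 := fun i h => by rw [← hfF i h u]; exact hu _
  have k1 : ∀ i, i < n → f1 i u = 0 := fun i h => by rw [← hfT i h u]; exact hu _
  refine ⟨P u, fun i h => hb u i h, ?_, ?_⟩
  · intro i hi
    have a0 := k0 i (by omega)
    have a1 := k1 (i + 1) hi
    have b0 : (Φ i (P u i)).1 - (if i + 1 < n then (P u (i + 1)).1 else (Θ (P u 0)).1) = 0 := a0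
    have b1 : (if i + 1 = 0 then (Θ (P u 0)).2 - (Φ (n - 1) (P u (n - 1))).2
      else (P u (i + 1)).2 - (Φ (i + 1 - 1) (P u (i + 1 - 1))).2) = 0 := a1
    rw [if_pos hi] at b0
    rw [if_neg (Nat.succ_ne_zero i), Nat.add_sub_cancel] at b1
    exact Prod.ext (by linarith) (by linarith)
  · have a0 := k0 (n - 1) (by omega)
    have a1 := k1 0 (by omega)
    have b0 : (Φ (n - 1) (P u (n - 1))).1 -
      (if n - 1 + 1 < n then (P u (n - 1 + 1)).1 else (Θ (P u 0)).1) = 0 := a0
    have b1 : (if (0 : ℕ) = 0 then (Θ (P u 0)).2 - (Φ (n - 1) (P u (n - 1))).2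
      else (P u 0).2 - (Φ (0 - 1) (P u (0 - 1))).2) = 0 := a1
    rw [if_neg (by omega)] at b0
    rw [if_pos rfl] at b1
    exact Prod.ext (by linarith) (by linarith)

end Pool.Agent.KTK.H77
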