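import Pool.Agent.KTK.Stmts2

/-!
# KTK, row QD2: exponential bound of the second order constants
-/

set_option autoImplicit false

namespace Pool.Agent.KTK.H77

open Pool.Agent.PRT Pool.Agent.KTK
open scoped ContDiff

/-- the derivative of an equivariant map is periodic -/
theorem fderiv_per {F : E → E} (h : Eqv F) (a b : ℤ) (z : E) :
    fderiv ℝ F (z + iv a b) = fderiv ℝ F z := by
  rw [← fderiv_comp_add_right (iv a b)]
  have e : (fun x => F (x + iv a b)) = fun x => F x + iv a b := funext fun x => h a b x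
  rw [e, fderiv_add_const]

/-- the derivative is bounded -/
theorem fderiv_bdd {F : E → E} (h : Cs F) : ∃ K : ℝ, ∀ z, ‖fderiv ℝ F z‖ ≤ K := by
  have hc : Continuous (fderiv ℝ F) := h.sm.continuous_fderiv (by simp)
  obtain ⟨K, hK⟩ := (isCompact_Icc (a := ((0, 0) : E)) (b := (1, 1))).exists_bound_of_continuousOn
    hc.continuousOn
  refine ⟨K, fun z => ?_⟩
  have h1 := hK (z + iv (-⌊z.1⌋) (-⌊z.2⌋)) ?_
  · rwa [fderiv_per h.eqv] at h1
  · have a1 := Int.floor_le z.1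
    have a2 := Int.floor_le z.2
    have b1 := (Int.lt_floor_add_one z.1).le
    have b2 := (Int.lt_floor_add_one z.2).le
    refine ⟨⟨?_, ?_⟩, ⟨?_, ?_⟩⟩
    · show (0 : ℝ) ≤ z.1 + ((-⌊z.1⌋ : ℤ) : ℝ)
      push_cast
      linarith
    · show (0 : ℝ) ≤ z.2 + ((-⌊z.2⌋ : ℤ) : ℝ)
      push_cast
      linarith
    · show z.1 + ((-⌊z.1⌋ : ℤ) : ℝ) ≤ 1
      push_cast
      linarith
    · show z.2 + ((-⌊z.2⌋ : ℤ) : ℝ) ≤ 1
      push_cast
      linarith

/-- Lipschitz constants of the iterates -/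
theorem lip_it {F : E → E} (h : Cs F) {K : ℝ} (h1 : 1 ≤ K) (hK : ∀ z, ‖fderiv ℝ F z‖ ≤ K) (m : ℕ) :
    ∀ x y : E, ‖F^[m] x - F^[m] y‖ ≤ K ^ m * ‖x - y‖ := by
  induction m with
  | zero =>
    intro x y
    rw [pow_zero, one_mul]
    exact le_rfl
  | succ m ih =>
    intro x y
    rw [Function.iterate_succ_apply', Function.iterate_succ_apply']
    have hd : Differentiable ℝ F := h.sm.differentiable (by simp)
    have h2 : ‖F (F^[m] x) - F (F^[m] y)‖ ≤ K * ‖F^[m] x - F^[m] y‖ :=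
      Convex.norm_image_sub_le_of_norm_fderiv_le (𝕜 := ℝ) (s := Set.univ) (fun z _ => hd z)
        (fun z _ => hK z) convex_univ (Set.mem_univ _) (Set.mem_univ _)
    have h3 := ih x y
    calc ‖F (F^[m] x) - F (F^[m] y)‖ ≤ K * ‖F^[m] x - F^[m] y‖ := h2
      _ ≤ K * (K ^ m * ‖x - y‖) := by gcongr
      _ = K ^ (m + 1) * ‖x - y‖ := by ring

/-- the second order constants of the iterates -/
theorem main {F : E → E} (h : Cs F) {K : ℝ} (h1 : 1 ≤ K) (hK : ∀ z, ‖fderiv ℝ F z‖ ≤ K)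
    (hQ : ∀ z k, ‖F (z + k) - F z - fderiv ℝ F z k‖ ≤ K * ‖k‖ ^ 2) (m : ℕ) :
    ∀ z k, ‖F^[m] (z + k) - F^[m] z - fderiv ℝ (F^[m]) z k‖ ≤ m * K ^ (2 * m) * ‖k‖ ^ 2 := by
  have hd : Differentiable ℝ F := h.sm.differentiable (by simp)
  induction m with
  | zero =>
    intro z k
    rw [Function.iterate_zero]
    have e : fderiv ℝ (id : E → E) z = ContinuousLinearMap.id ℝ E := fderiv_id
    rw [e]
    simp
  | succ m ih =>
    intro z k
    have hdm : Differentiable ℝ (F^[m]) := hd.iterate m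
    have hD : fderiv ℝ (F^[m + 1]) z = (fderiv ℝ F (F^[m] z)).comp (fderiv ℝ (F^[m]) z) := by
      have e : F^[m + 1] = F ∘ F^[m] := Function.iterate_succ' F m
      rw [e]
      exact fderiv_comp z (hd _) (hdm z)
    have hk := lip_it h h1 hK m (z + k) z
    rw [add_sub_cancel_left] at hk
    have hi := ih z k
    have hq := hQ (F^[m] z) (F^[m] (z + k) - F^[m] z)
    rw [add_sub_cancel] at hq
    rw [hD, Function.iterate_succ_apply', Function.iterate_succ_apply']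
    have e1 : F (F^[m] (z + k)) - F (F^[m] z) -
        ((fderiv ℝ F (F^[m] z)).comp (fderiv ℝ (F^[m]) z)) k =
        (F (F^[m] (z + k)) - F (F^[m] z) - fderiv ℝ F (F^[m] z) (F^[m] (z + k) - F^[m] z)) +
          fderiv ℝ F (F^[m] z) (F^[m] (z + k) - F^[m] z - fderiv ℝ (F^[m]) z k) := by
      rw [ContinuousLinearMap.comp_apply, map_sub (fderiv ℝ F (F^[m] z))
        (F^[m] (z + k) - F^[m] z) (fderiv ℝ (F^[m]) z k)]
      abel
    rw [e1]
    have hn : 0 ≤ K := by linarith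
    have h2 : ‖fderiv ℝ F (F^[m] z) (F^[m] (z + k) - F^[m] z - fderiv ℝ (F^[m]) z k)‖ ≤
        K * (m * K ^ (2 * m) * ‖k‖ ^ 2) := by
      refine (ContinuousLinearMap.le_opNorm _ _).trans ?_
      exact mul_le_mul (hK _) hi (norm_nonneg _) hn
    have h3 : K * ‖F^[m] (z + k) - F^[m] z‖ ^ 2 ≤ K * (K ^ (2 * m) * ‖k‖ ^ 2) := by
      have h4 : ‖F^[m] (z + k) - F^[m] z‖ ^ 2 ≤ (K ^ m * ‖k‖) ^ 2 :=
        pow_le_pow_left₀ (norm_nonneg _) hk 2
      have e2 : (K ^ m * ‖k‖) ^ 2 = K ^ (2 * m) * ‖k‖ ^ 2 := by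
        rw [mul_pow, ← pow_mul]
        congr 2
        ring
      rw [e2] at h4
      exact mul_le_mul_of_nonneg_left h4 hn
    have h5 : K ^ (2 * m + 1) ≤ K ^ (2 * (m + 1)) := pow_le_pow_right₀ h1 (by omega)
    have h6 : K * (K ^ (2 * m) * ‖k‖ ^ 2) + K * (m * K ^ (2 * m) * ‖k‖ ^ 2) =
        ((m : ℝ) + 1) * K ^ (2 * m + 1) * ‖k‖ ^ 2 := by
      rw [pow_succ]
      ring
    have h7 : ((m : ℝ) + 1) * K ^ (2 * m + 1) * ‖k‖ ^ 2 ≤
        ((m : ℝ) + 1) * K ^ (2 * (m + 1)) * ‖k‖ ^ 2 := by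
      have hm : (0 : ℝ) ≤ (m : ℝ) + 1 := by positivity
      exact mul_le_mul_of_nonneg_right (mul_le_mul_of_nonneg_left h5 hm) (by positivity)
    have h8 := norm_add_le
      (F (F^[m] (z + k)) - F (F^[m] z) - fderiv ℝ F (F^[m] z) (F^[m] (z + k) - F^[m] z))
      (fderiv ℝ F (F^[m] z) (F^[m] (z + k) - F^[m] z - fderiv ℝ (F^[m]) z k))
    have h9 : ((m + 1 : ℕ) : ℝ) = (m : ℝ) + 1 := by push_cast; ring
    rw [h9]
    linarith

/-- **QD2** -/
theorem qd2 (hQDR : QdrStmt) : Qd2Stmt := by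
  intro F hF
  obtain ⟨C1, _, hC1⟩ := hQDR F hF.sm hF.eqv
  obtain ⟨K1, hK1⟩ := fderiv_bdd hF
  let K : ℝ := max 1 (max C1 K1)
  have h1 : 1 ≤ K := le_max_left _ _
  have hK : ∀ z, ‖fderiv ℝ F z‖ ≤ K := fun z =>
    (hK1 z).trans ((le_max_right _ _).trans (le_max_right _ _))
  have hCK : C1 ≤ K := (le_max_left _ _).trans (le_max_right _ _)
  have hQ : ∀ z k, ‖F (z + k) - F z - fderiv ℝ F z k‖ ≤ K * ‖k‖ ^ 2 := fun z k =>
    (hC1 z k).trans (mul_le_mul_of_nonneg_right hCK (by positivity))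
  have hl : 0 ≤ Real.log K := Real.log_nonneg h1
  have hK0 : 0 < K := by linarith
  refine ⟨1 + 2 * Real.log K, by linarith, fun m hm => ⟨m * K ^ (2 * m), ?_, ?_, main hF h1 hK hQ m⟩⟩
  · have hm' : (0 : ℝ) < m := by exact_mod_cast hm
    positivity
  · have e : (1 + 2 * Real.log K) * (m : ℝ) = m + ((2 * m : ℕ) : ℝ) * Real.log K := by
      push_cast
      ring
    rw [e, Real.exp_add, Real.exp_nat_mul, Real.exp_log hK0]
    have h2 : (m : ℝ) ≤ Real.exp m := by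
      have := Real.add_one_le_exp (m : ℝ)
      linarith
    exact mul_le_mul_of_nonneg_right h2 (by positivity)

end Pool.Agent.KTK.H77
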